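import Pool.Agent.HFC.Stmts

/-!
Row HPQ: quotients by a subgroup of the central factor.
-/

namespace Pool.Agent.HFC.H52

open Pool.Agent.PSS Pool.Agent.PST Pool.Agent.PST.GU

theorem hpq : HpqStmt := by
  intro hRS K ℓ hA V V' _ _ E E' π hQ hab C V₀ hinf hsup hC hV0 hK hker
  have hab' : ∀ a b : V', a * b = b * a := by
    intro a b
    obtain ⟨x, rfl⟩ := hQ.sur a
    obtain ⟨y, rfl⟩ := hQ.sur b
    rw [← map_mul, hab, map_mul]
  refine ⟨hab', C.map π, V₀.map π, ?_, ?_, ?_, ?_, ?_⟩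
  · rw [Subgroup.eq_bot_iff_forall]
    rintro _ ⟨⟨c, hc, rfl⟩, ⟨v, hv, hcv⟩⟩
    have h1 : c⁻¹ * v ∈ π.ker := by
      rw [MonoidHom.mem_ker, map_mul, map_inv, hcv, inv_mul_cancel]
    have h2 : v ∈ C := by
      have h4 := C.mul_mem hc (hker h1)
      rwa [mul_inv_cancel_left] at h4
    have h3 : v ∈ C ⊓ V₀ := ⟨h2, hv⟩
    rw [hinf, Subgroup.mem_bot] at h3
    rw [← hcv, h3, map_one]
  · rw [← Subgroup.map_sup, hsup]
    exact Subgroup.map_top_of_surjective π hQ.sur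
  · rintro a' ha' _ ⟨c, hc, rfl⟩
    obtain ⟨a, ha, h⟩ := hQ.lif a' ha'
    rw [← h, hC a ha c hc]
  · rintro a' ha' _ ⟨v, hv, rfl⟩
    obtain ⟨a, ha, h⟩ := hQ.lif a' ha'
    rw [← h]
    exact ⟨a v, hV0 a ha v hv, rfl⟩
  · rcases hK with h0 | ⟨W₀, hW⟩
    · left
      rw [h0, Subgroup.map_bot]
    · right
      have h1 : V₀ ⊓ π.ker = ⊥ := by
        rw [eq_bot_iff, ← hinf]
        exact fun x hx => ⟨hker hx.2, hx.1⟩
      obtain ⟨τ, _, hq⟩ := hRS V V' E E' π hQ V₀ hV0 h1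
      exact ⟨_, hA.iso _ _ _ _ W₀ τ hq hW⟩

end Pool.Agent.HFC.H52
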